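import Pool.Agent.Helper40.GA.Trans
import Pool.Agent.Helper98.TW.Stmts

/-!
Uniquely ergodic triangular maps of tori belong to the class of the hand-in.
-/

open Finset Filter MeasureTheory Topology
open scoped ComplexConjugate

namespace Pool.Agent.Helper40.GA

open Pool.Agent.Helper16.AZ (T mm)
open Pool.Agent.Helper98.TW (Tow TI SS ST_INV ST_MPS tr)
open Pool.Agent.Helper98.TA (ST_TWT Md)
open Pool.Agent.Helper40.GZP (Full haar shift)
open Pool.Agent.Helper40.GAP (Triangular Model)

/-- an invariant probability measure which is unique is ergodic -/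
theorem ergodic_of_unique {Y : Type} [MeasurableSpace Y] {S : Y → Y} {ν : Measure Y}
    [IsProbabilityMeasure ν] (hS : MeasurePreserving S ν ν)
    (hu : ∀ ν' : Measure Y, IsProbabilityMeasure ν' → MeasurePreserving S ν' ν' → ν' = ν) :
    Ergodic S ν := by
  refine ⟨hS, ⟨fun s hs hinv => ?_⟩⟩
  rw [eventuallyConst_set']
  by_cases h0 : ν s = 0
  · left
    exact ae_eq_empty.2 h0
  · right
    let ν' : Measure Y := (ν s)⁻¹ • ν.restrict s
    have hp : IsProbabilityMeasure ν' := by
      refine ⟨?_⟩
      simp only [ν', Measure.smul_apply, Measure.restrict_apply_univ, smul_eq_mul]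
      exact ENNReal.inv_mul_cancel h0 (measure_ne_top _ _)
    have hmp : MeasurePreserving S ν' ν' := by
      have h1 := hS.restrict_preimage hs
      rw [hinv] at h1
      exact h1.smul_measure _
    have he := hu ν' hp hmp
    have h2 : ν sᶜ = 0 := by
      rw [← he]
      simp [ν', Measure.restrict_apply hs.compl]
    exact ae_eq_univ.2 h2

section tor

variable {N : ℕ}

/-- the values of the characters of the coordinates -/
noncomputable def eU (x : T N) : Fin N → ℂ := fun i => fourier 1 (x i)

theorem eU_cont : Continuous (eU : T N → (Fin N → ℂ)) :=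
  continuous_pi fun i => (fourier 1).continuous.comp (continuous_apply i)

theorem eU_inj : Function.Injective (eU : T N → (Fin N → ℂ)) := by
  intro x y h
  funext i
  have h1 : (fourier 1 (x i) : ℂ) = fourier 1 (y i) := congrFun h i
  rw [fourier_one, fourier_one] at h1
  exact AddCircle.injective_toCircle one_ne_zero (Subtype.ext h1)

theorem tri_of {f : Fin N → C(T N, UnitAddCircle)}
    (hd : ∀ i x x', (∀ j, j < i → x j = x' j) → f i x = f i x') (ν : Measure (T N)) :
    Triangular (shift fun i => f i) ν := by
  classical
  have hE : MeasurableEmbedding (eU : T N → (Fin N → ℂ)) :=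
    eU_cont.measurable.measurableEmbedding eU_inj
  have hex : ∀ i : Fin N, ∃ G : (Fin N → ℂ) → ℂ, Measurable G ∧
      ∀ x, G (eU x) = fourier 1 (f i x) := by
    intro i
    obtain ⟨G, hG, hGe⟩ := hE.exists_measurable_extend
      (((fourier 1).continuous.comp (f i).continuous).measurable :
        Measurable fun x : T N => (fourier 1 (f i x) : ℂ)) (fun _ => ⟨0⟩)
    exact ⟨G, hG, fun x => congrFun hGe x⟩
  choose G hG hGe using hex
  refine ⟨N, fun i x => eU x i, fun i z => G i (fun j => if j < i then z j else 1),
    fun i => ⟨((continuous_apply i).comp eU_cont).measurable, fun x => ?_⟩,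
    fun i => ⟨?_, fun z z' h => ?_⟩, fun i => Eventually.of_forall fun x => ?_,
    Set.univ, MeasurableSet.univ, by simp, fun x _ y _ h => eU_inj (funext h)⟩
  · show ‖(fourier 1 (x i) : ℂ)‖ = 1
    rw [fourier_one]
    exact Circle.norm_coe _
  · refine (hG i).comp (measurable_pi_lambda _ fun j => ?_)
    by_cases hj : j < i
    · simpa [hj] using measurable_pi_apply j
    · simp [hj]
  · show G i (fun j => if j < i then z j else 1) = G i (fun j => if j < i then z' j else 1)
    congr 1
    funext j
    by_cases hj : j < i
    · simp [hj, h j hj]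
    · simp [hj]
  · show (fourier 1 (x i + f i x) : ℂ) = G i (fun j => if j < i then eU x j else 1) * fourier 1 (x i)
    have h1 : (fun j => if j < i then eU x j else 1) = eU (fun j => if j < i then x j else 0) := by
      funext j
      by_cases hj : j < i
      · simp [hj, eU]
      · simp [hj, eU]
    have h2 : f i (fun j => if j < i then x j else 0) = f i x :=
      hd i _ _ fun j hj => by simp [hj]
    rw [h1, hGe i, h2]
    simp only [fourier_one, AddCircle.toCircle_add, Circle.coe_mul]
    rw [mul_comm]

theorem tor_model (twt : ST_TWT) (inv : ST_INV) (mps : ST_MPS) (N : ℕ)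
    (f : Fin N → C(T N, UnitAddCircle))
    (hd : ∀ i x x', (∀ j, j < i → x j = x' j) → f i x = f i x')
    (hu : ∀ (ν ν' : Measure (T N)) [IsProbabilityMeasure ν]
      [IsProbabilityMeasure ν'], MeasurePreserving (shift fun i => f i) ν ν →
      MeasurePreserving (shift fun i => f i) ν' ν' → ν = ν') :
    Model (shift fun i => f i) (haar N) ∧ Full (haar N) := by
  have ht : Tow (fun i : Fin N => (i : ℕ)) (fun i => (f i : T N → UnitAddCircle)) :=
    ⟨fun i => (f i).continuous.measurable, fun i x => hd i _ _ fun j hj => by
      have : (j : ℕ) < (i : ℕ) := hj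
      simp [tr, this]⟩
  have hS : (shift fun i => f i) = SS (fun i => (f i : T N → UnitAddCircle)) := rfl
  have hh : haar N = mm N := rfl
  obtain ⟨f', hti⟩ := inv N _ _ ht
  have hmp : MeasurePreserving (SS (fun i => (f i : T N → UnitAddCircle))) (mm N) (mm N) := by
    have := (mps N _ _ _ hti 1).mp
    simpa using this
  have huq : ∀ ν' : Measure (T N), IsProbabilityMeasure ν' →
      MeasurePreserving (SS (fun i => (f i : T N → UnitAddCircle))) ν' ν' → ν' = mm N :=
    fun ν' hν' h => by
      have := hν'
      exact hu ν' (mm N) h hmp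
  have herg := ergodic_of_unique hmp huq
  have hmd := twt N _ _ ht herg
  have hpos : (mm N).IsOpenPosMeasure := inferInstance
  refine ⟨⟨?_, inferInstanceAs (IsProbabilityMeasure (mm N)), hmp, huq, hmd.1, tri_of hd _⟩,
    fun O hO hne => ?_⟩
  · exact ⟨fun x y h => by
      have := congrArg (SS f') h
      rwa [hS, hti.l, hti.l] at this, fun x => ⟨SS f' x, hti.r x⟩⟩
  · rw [hh]
    exact hO.measure_pos (mm N) hne

end tor

end Pool.Agent.Helper40.GA
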