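import Pool.Agent.Helper40.GA.Fin
import Pool.Agent.Helper40.GA.Tor
import Pool.Agent.Helper40.IZ.All
import Pool.Agent.Helper40.GY.EMB
import Pool.Agent.Helper96.JZ.LMF
import Pool.Agent.Helper13.TWR.LZ
import Pool.Agent.Helper19.TWR.PSI
import Pool.Agent.Helper34.TWR.SM0
import Pool.Agent.Helper41.TWR.ALS
import Pool.Agent.Helper41.TWR.CHZ
import Pool.Agent.Helper41.TWR.IAL
import Pool.Agent.Helper41.TWR.INV
import Pool.Agent.Helper59.TWR.KK
import Pool.Agent.Helper59.TWR.MPS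
import Pool.Agent.Helper73.TWR.CEC
import Pool.Agent.Helper73.TWR.IAJ
import Pool.Agent.Helper89.TWR.PSE
import Pool.Agent.Helper89.TWR.MSK
import Pool.Agent.Helper92.TWR.BI
import Pool.Agent.Helper95.TWR.SCL
import Pool.Agent.Helper95.TWR.SST
import Pool.Agent.Helper96.TWR.DNS
import Pool.Agent.Helper96.TWR.PFC
import Pool.Agent.Helper96.TWR.SPN
import Pool.Agent.Helper99.TWR.TWS
import Pool.Agent.Helper19.TWM.MPU
import Pool.Agent.Helper29.TWM.MZD
import Pool.Agent.Helper41.TWM.MTV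
import Pool.Agent.Helper59.TWM.MEN
import Pool.Agent.Helper60.TWM.MWI
import Pool.Agent.Helper72.TWM.MDC
import Pool.Agent.Helper72.TWM.MIV
import Pool.Agent.Helper74.TWM.MAS
import Pool.Agent.Helper74.TWM.MCM
import Pool.Agent.Helper95.TWM.MCL
import Pool.Agent.Helper95.TWM.MIR
import Pool.Agent.Helper96.TWM.MCE
import Pool.Agent.Helper96.TWM.MNK
import Pool.Agent.Helper19.GY.FXC
import Pool.Agent.Helper19.GY.FXR
import Pool.Agent.Helper19.GY.RXS
import Pool.Agent.Helper29.GY.GRI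
import Pool.Agent.Helper34.GY.CVR
import Pool.Agent.Helper34.GY.CYC
import Pool.Agent.Helper41.GY.CTH
import Pool.Agent.Helper47.GY.MSP
import Pool.Agent.Helper49.GY.FRM
import Pool.Agent.Helper59.GY.UEQ
import Pool.Agent.Helper72.GY.EQC
import Pool.Agent.Helper72.GY.PTC
import Pool.Agent.Helper73.GY.THB
import Pool.Agent.Helper89.GY.CMP
import Pool.Agent.Helper89.GY.MOD
import Pool.Agent.Helper92.GY.CIT
import Pool.Agent.Helper94.GY.PTB
import Pool.Agent.Helper95.GY.RIS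
import Pool.Agent.Helper96.GY.CSP
import Pool.Agent.Helper99.GY.EQR
import Pool.Agent.Helper98.TA.MHA
import Pool.Agent.Helper98.TA.VAL
import Pool.Agent.Helper98.TA.BMT
import Pool.Agent.Helper13.TA.GDB
import Pool.Agent.Helper13.TA.SCH
import Pool.Agent.Helper13.TA.TDV
import Pool.Agent.Helper13.TA.VTO
import Pool.Agent.Helper13.TA.WMG
import Pool.Agent.Helper19.TA.HUX
import Pool.Agent.Helper34.TA.SMC
import Pool.Agent.Helper46.TA.TCL
import Pool.Agent.Helper46.TA.TER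
import Pool.Agent.Helper46.TA.VCL
import Pool.Agent.Helper49.TA.ABX
import Pool.Agent.Helper49.TA.HQB
import Pool.Agent.Helper49.TA.TWT
import Pool.Agent.Helper49.TA.WMF
import Pool.Agent.Helper53.TA.HQ0
import Pool.Agent.Helper53.TA.HQC
import Pool.Agent.Helper53.TA.RCI
import Pool.Agent.Helper59.TA.VC2
import Pool.Agent.Helper59.TA.WAL
import Pool.Agent.Helper60.TA.SGT
import Pool.Agent.Helper60.TA.TKR
import Pool.Agent.Helper60.TA.TST
import Pool.Agent.Helper64.TA.HSM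
import Pool.Agent.Helper64.TA.SME
import Pool.Agent.Helper72.TA.RSS
import Pool.Agent.Helper72.TA.WAJ
import Pool.Agent.Helper73.TA.BGN
import Pool.Agent.Helper73.TA.VC1
import Pool.Agent.Helper74.TA.HQS
import Pool.Agent.Helper89.TA.MLB
import Pool.Agent.Helper89.TA.RG1
import Pool.Agent.Helper92.TA.RIE
import Pool.Agent.Helper94.TA.SIN
import Pool.Agent.Helper94.TA.TKG
import Pool.Agent.Helper94.TA.VAP
import Pool.Agent.Helper94.TA.VFR
import Pool.Agent.Helper95.TA.TVC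
import Pool.Agent.Helper95.TA.WTC
import Pool.Agent.Helper99.TA.BSP
import Pool.Agent.Helper99.TA.ROR
import Pool.Agent.Helper99.TA.RSW
import Pool.Agent.Helper99.TA.RTH
import Pool.Agent.Helper99.TA.TEX
import Pool.Agent.Helper99.TA.VCO

/-!
All the modules of the theorem on isometric extensions of uniquely ergodic models of triangular
systems put together.
-/

open MeasureTheory

namespace Pool.Agent.Helper40.GA

universe u

/-! ### sheet TW -/

section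

open Pool.Agent.Helper98.TW

theorem w_CEC : ST_CEC := Pool.Agent.Helper73.TWR.st_CEC

theorem w_IAJ : ST_IAJ := Pool.Agent.Helper73.TWR.st_IAJ

theorem w_DNS : ST_DNS := Pool.Agent.Helper96.TWR.st_DNS

theorem w_PFC : ST_PFC := Pool.Agent.Helper96.TWR.st_PFC

theorem w_SPN : ST_SPN := Pool.Agent.Helper96.TWR.st_SPN

theorem w_LZ : ST_LZ := Pool.Agent.Helper13.TWR.st_LZ w_CEC

theorem w_LT : ST_LT := Pool.Agent.Helper13.TWR.st_LT w_LZ w_DNS

theorem w_MPS : ST_MPS := Pool.Agent.Helper59.TWR.st_MPS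

theorem w_ALS : ST_ALS := Pool.Agent.Helper41.TWR.st_ALS

theorem w_CHZ : ST_CHZ := Pool.Agent.Helper41.TWR.st_CHZ

theorem w_IAL : ST_IAL := Pool.Agent.Helper41.TWR.st_IAL w_MPS

theorem w_INV : ST_INV := Pool.Agent.Helper41.TWR.st_INV

theorem w_TWS : ST_TWS := Pool.Agent.Helper99.TWR.TWS

theorem w_SCL : ST_SCL := Pool.Agent.Helper95.TWR.st_SCL

theorem w_SST : ST_SST := Pool.Agent.Helper95.TWR.st_SST

theorem w_SM0 : ST_SM0 := Pool.Agent.Helper34.TWR.st_SM0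

theorem w_PSI : ST_PSI := Pool.Agent.Helper19.TWR.st_PSI w_CEC

theorem w_PSE : ST_PSE := Pool.Agent.Helper89.TWR.st_PSE

theorem w_KK : ST_KK := Pool.Agent.Helper59.TWR.st_KK w_PSI w_PSE

theorem w_BI : ST_BI := Pool.Agent.Helper92.TWR.st_BI

end

/-! ### sheet TWM -/

section

open Pool.Agent.Helper40.TWM

theorem m_LMF : Pool.Agent.Helper40.JZ.ST_LMF :=
  Pool.Agent.Helper40.JZ.st_LMF Pool.Agent.Helper40.DZ.all_KER

theorem m_MZD : ST_MZD := Pool.Agent.Helper29.TWM.st_MZD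

theorem m_MDC : ST_MDC := Pool.Agent.Helper72.TWM.st_MDC

theorem m_MEN : ST_MEN := Pool.Agent.Helper59.TWM.st_MEN w_SPN

theorem m_MIR : ST_MIR := Pool.Agent.Helper95.TWM.st_MIR w_SCL

theorem m_MCL : ST_MCL := Pool.Agent.Helper95.TWM.st_MCL m_MEN w_TWS

theorem m_MWI : ST_MWI := Pool.Agent.Helper60.TWM.st_MWI m_MCL m_MEN m_MIR

theorem m_MIV : ST_MIV := Pool.Agent.Helper72.TWM.st_MIV m_MDC m_MWI

theorem m_MPU : ST_MPU := Pool.Agent.Helper19.TWM.st_MPU w_CEC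

theorem m_MPE : ST_MPE := Pool.Agent.Helper89.TWR.st_MPE

theorem m_MSK : ST_MSK := Pool.Agent.Helper89.TWR.st_MSK w_CEC

theorem m_MNK : ST_MNK := Pool.Agent.Helper96.TWM.st_MNK m_MSK

theorem m_MCE : ST_MCE := Pool.Agent.Helper96.TWM.st_MCE m_LMF

theorem m_MCM : ST_MCM := Pool.Agent.Helper74.TWM.st_MCM m_MDC m_MIV m_MIR

theorem m_MAS : ST_MAS := Pool.Agent.Helper74.TWM.st_MAS m_MPU m_MPE m_MIV m_MCM m_MCE m_MSK

theorem m_MTV : ST_MTV := Pool.Agent.Helper41.TWM.st_MTV m_MZD m_MAS m_MSK m_MNK m_LMF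

end

/-! ### sheet GY -/

section

open Pool.Agent.Helper98.GY

theorem y_RIS : ST_RIS := Pool.Agent.Helper98.GY.st_RIS

theorem y_EQR : ST_EQR := Pool.Agent.Helper99.GY.st_EQR y_RIS

theorem y_GRI : ST_GRI := Pool.Agent.Helper29.GY.st_GRI y_RIS

theorem y_PTB : ST_PTB := Pool.Agent.Helper94.GY.st_PTB y_EQR Pool.Agent.Helper16.AZ.all_MRF

theorem y_PTC : ST_PTC := Pool.Agent.Helper72.GY.st_PTC Pool.Agent.Helper16.BZ.all_KT2
  Pool.Agent.Helper16.BZ.all_GAM2 Pool.Agent.Helper16.MD.all_WND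

theorem y_THB : ST_THB := Pool.Agent.Helper73.GY.st_THB y_PTC Pool.Agent.Helper40.DZ.all_DEC3 y_PTB

theorem y_MSP : ST_MSP := Pool.Agent.Helper47.GY.st_MSP Pool.Agent.Helper40.DZ.all_KER m_LMF y_RIS
  y_EQR

theorem y_UEQ : ST_UEQ := Pool.Agent.Helper59.GY.st_UEQ

theorem y_CMP : ST_CMP := Pool.Agent.Helper89.GY.st_CMP

theorem y_EQC : ST_EQC := Pool.Agent.Helper72.GY.st_EQC y_CMP

theorem y_EMB : ST_EMB := Pool.Agent.Helper40.GY.st_EMB

theorem y_MOD : ST_MOD := Pool.Agent.Helper89.GY.st_MOD y_CMP y_EQC y_EMB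

theorem y_FRM : ST_FRM := Pool.Agent.Helper49.GY.st_FRM

theorem y_CVR : ST_CVR := Pool.Agent.Helper34.GY.st_CVR

theorem y_CYC : ST_CYC := Pool.Agent.Helper34.GY.st_CYC y_FRM Pool.Agent.Helper40.IZ.st_POL y_CVR

theorem y_FXC : ST_FXC := Pool.Agent.Helper19.GY.st_FXC y_MOD Pool.Agent.Helper40.IZ.all_HMS
  Pool.Agent.Helper40.IZ.all_FDE y_CYC y_GRI

theorem y_RXS : ST_RXS := Pool.Agent.Helper19.GY.st_RXS

theorem y_FXR : ST_FXR := Pool.Agent.Helper19.GY.st_FXR y_FXC y_RXS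

theorem y_CIT : ST_CIT.{u} := Pool.Agent.Helper92.GY.st_CIT

theorem y_CTH : ST_CTH.{u} := Pool.Agent.Helper41.GY.st_CTH Pool.Agent.Helper16.BZ.all_RMF2 y_CIT

theorem y_CSP : ST_CSP.{u} := Pool.Agent.Helper96.GY.st_CSP y_CTH

end

/-! ### sheet TA -/

section

open Pool.Agent.Helper98.TA

theorem a_BGN : ST_BGN := Pool.Agent.Helper73.TA.st_BGN

theorem a_BSP : ST_BSP := Pool.Agent.Helper99.TA.st_BSP

theorem a_BMT : ST_BMT := Pool.Agent.Helper98.TA.st_BMT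

theorem a_ABX : ST_ABX := Pool.Agent.Helper49.TA.st_ABX w_IAJ

theorem a_TER : ST_TER := Pool.Agent.Helper46.TA.st_TER

theorem a_SIN : ST_SIN := Pool.Agent.Helper94.TA.st_SIN w_LT w_IAJ a_ABX

theorem a_SCH : ST_SCH := Pool.Agent.Helper13.TA.st_SCH w_LT w_IAJ

theorem a_SGT : ST_SGT := Pool.Agent.Helper60.TA.st_SGT a_SCH

theorem a_SMC : ST_SMC := Pool.Agent.Helper34.TA.st_SMC w_SM0 w_SST w_IAJ

theorem a_SME : ST_SME := Pool.Agent.Helper64.TA.st_SME a_SIN a_SMC a_ABX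

theorem a_HQ0 : ST_HQ0 := Pool.Agent.Helper53.TA.st_HQ0

theorem a_HQS : ST_HQS := Pool.Agent.Helper74.TA.st_HQS a_BSP w_LZ w_PFC

theorem a_HQC : ST_HQC := Pool.Agent.Helper53.TA.st_HQC a_BGN w_LT

theorem a_HQB : ST_HQB := Pool.Agent.Helper49.TA.st_HQB

theorem a_HUX : ST_HUX := Pool.Agent.Helper19.TA.st_HUX a_HQ0 a_HQS a_HQC a_HQB a_SIN

theorem a_WMF : ST_WMF := Pool.Agent.Helper49.TA.st_WMF w_LZ w_DNS

theorem a_WM1 : ST_WM1 := Pool.Agent.Helper13.TA.st_WM1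

theorem a_WTC : ST_WTC := Pool.Agent.Helper95.TA.st_WTC a_WMF

theorem a_WAL : ST_WAL := Pool.Agent.Helper59.TA.st_WAL a_SME w_KK

theorem a_RSW : ST_RSW := Pool.Agent.Helper99.TA.st_RSW

theorem a_RSB : ST_RSB := Pool.Agent.Helper99.TA.st_RSB

theorem a_RCI : ST_RCI := Pool.Agent.Helper53.TA.st_RCI

theorem a_RTH : ST_RTH := Pool.Agent.Helper99.TA.st_RTH a_RSW w_LT w_PFC a_RCI

theorem a_RG1 : ST_RG1 := Pool.Agent.Helper89.TA.st_RG1 a_RSW

theorem a_RSS : ST_RSS := Pool.Agent.Helper72.TA.st_RSS a_WAL a_WTC a_WM1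

theorem a_RIE : ST_RIE := Pool.Agent.Helper92.TA.st_RIE a_RTH

theorem a_ROR : ST_ROR := Pool.Agent.Helper99.TA.st_ROR a_RG1 a_RTH w_LZ w_DNS w_PFC

theorem a_TEX : ST_TEX := Pool.Agent.Helper99.TA.st_TEX w_DNS

theorem a_TCL : ST_TCL := Pool.Agent.Helper46.TA.st_TCL

theorem a_TDV : ST_TDV := Pool.Agent.Helper13.TA.st_TDV w_LT w_IAJ a_TER

theorem a_TKG : ST_TKG := Pool.Agent.Helper94.TA.st_TKG w_LZ w_DNS

theorem a_TKR : ST_TKR := Pool.Agent.Helper60.TA.st_TKR a_TEX a_TDV a_TCL w_LZ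

theorem a_TVC : ST_TVC := Pool.Agent.Helper95.TA.st_TVC w_CEC

theorem a_TST : ST_TST := Pool.Agent.Helper60.TA.st_TST a_TEX a_TKR a_TKG a_TVC a_WAL a_TCL a_TER

theorem a_VC2 : ST_VC2 := Pool.Agent.Helper59.TA.st_VC2 w_KK w_BI

theorem a_VC1 : ST_VC1 := Pool.Agent.Helper73.TA.st_VC1 w_DNS w_LZ w_IAJ w_PFC a_BMT

theorem a_HSM : ST_HSM := Pool.Agent.Helper64.TA.st_HSM a_SMC a_BMT

theorem a_VCL : ST_VCL := Pool.Agent.Helper46.TA.st_VCL a_HSM a_VC1 a_VC2 a_BMT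

theorem a_VCO : ST_VCO := Pool.Agent.Helper99.TA.st_VCO a_BMT

theorem a_VTO : ST_VTO := Pool.Agent.Helper13.TA.st_VTO w_LZ w_DNS a_VCO

theorem a_VAP : ST_VAP := Pool.Agent.Helper94.TA.st_VAP w_DNS w_LZ

theorem a_VFR : ST_VFR := Pool.Agent.Helper94.TA.st_VFR a_VCO a_VAP a_ROR

theorem a_VAL : ST_VAL := Pool.Agent.Helper98.TA.st_VAL a_ABX a_RSB a_RSS a_RIE a_VCL a_VTO a_VFR

theorem a_MHA : ST_MHA := Pool.Agent.Helper98.TA.st_MHA a_BMT a_ABX a_SGT a_SMC a_HUX a_VAL a_TST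
  a_TCL

theorem a_MLB : ST_MLB := Pool.Agent.Helper89.TA.st_MLB a_MHA m_MTV m_MSK m_MNK m_LMF

theorem a_GDB : ST_GDB := Pool.Agent.Helper13.TA.st_GDB a_MLB y_MSP y_THB y_UEQ

theorem a_TWT : ST_TWT := Pool.Agent.Helper49.TA.st_TWT w_INV w_MPS w_IAL w_ALS w_CHZ w_LT

end

/-! ### the theorem -/

open Pool.Agent.Helper40.GZP (IsoExt Rot FamSet Full haar shift)
open Pool.Agent.Helper40.GAP (Model AffineZero Adm)
open Pool.Agent.Helper40.DZP (Vanish)
open Pool.Agent.Helper40.Mob (TwistedDisjoint)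

/-- part 1 -/
theorem all_one (X Y : Type) [MetricSpace X] [CompactSpace X]
    [MetricSpace Y] [CompactSpace Y] [MeasurableSpace Y] [BorelSpace Y] (ν : Measure Y)
    (S : C(Y, Y)) (π : X → Y) (τ : X → X) (ρ : X → X → ℝ) (F : X → ℂ) (hI : IsoExt π S τ ρ)
    (hA : Adm ν π S τ F) (x : X) : Vanish τ F x := by
  rcases hA with ⟨hM, hF, hτ, hFc, hB⟩ | ⟨hM, hτ, hF⟩
  · exact fin_one a_GDB y_FXR X Y ν S π τ ρ F hM hF hI hτ hFc hB x
  · exact aff_one (fun X _ _ r π S τ ρ F hI hA x =>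
      Pool.Agent.Helper40.IZ.all_one X r π S τ ρ F hI hA x) X Y S π τ ρ F hM hI hτ hF x

/-- part 2 -/
theorem all_two (B : Type u) [CStarAlgebra B] (Y : Type)
    [MetricSpace Y] [CompactSpace Y] [MeasurableSpace Y] [BorelSpace Y] (ν : Measure Y)
    (S : C(Y, Y)) (α : B →⋆ₐ[ℂ] B) (π : C(Y, ℂ) →⋆ₐ[ℂ] B) (hM : Model S ν ∨ AffineZero S)
    (hr : Rot S α π) (a : B)
    (ha : a ∈ closure (Submodule.span ℂ (FamSet α π) : Set B)) : TwistedDisjoint α a := by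
  rcases hM with hM | hM
  · exact fin_two a_GDB y_CSP B Y ν S α π hM hr a ha
  · exact aff_two (fun B _ r S α π hS hr a ha =>
      Pool.Agent.Helper40.DZ.fin_two Pool.Agent.Helper40.DZ.all_CSP4
        Pool.Agent.Helper40.DZ.all_GBS Pool.Agent.Helper40.DZ.all_ZEA B r S α π hS hr a ha)
      B Y S α π hM hr a ha

/-- part 3 -/
theorem all_three (N : ℕ) (f : Fin N → C(UnitAddTorus (Fin N), UnitAddCircle))
    (hd : ∀ i x x', (∀ j, j < i → x j = x' j) → f i x = f i x')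
    (hu : ∀ (ν ν' : Measure (UnitAddTorus (Fin N))) [IsProbabilityMeasure ν]
      [IsProbabilityMeasure ν'], MeasurePreserving (shift fun i => f i) ν ν →
      MeasurePreserving (shift fun i => f i) ν' ν' → ν = ν') :
    Model (shift fun i => f i) (haar N) ∧ Full (haar N) :=
  tor_model a_TWT w_INV w_MPS N f hd hu

end Pool.Agent.Helper40.GA
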