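import Pool.Agent.Helper40.GA.Trans
import Pool.Agent.Helper98.GY.Stmts2
import Pool.Agent.Helper40.IZ.Pub

/-!
The last step: from the statements of the modules to the hand-in on uniquely ergodic models of
triangular systems.
-/

open Finset Filter MeasureTheory Topology
open scoped ArithmeticFunction.Moebius

namespace Pool.Agent.Helper40.GA

open Pool.Agent.Helper98.TA (ST_GDB)
open Pool.Agent.Helper98.GY (Good GoodC ST_FXR ST_CSP)
open Pool.Agent.Helper16.AZ (T E Op mm)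
open Pool.Agent.Helper40.Mob (TwistedDisjoint)
open Pool.Agent.Helper40.GZP (Full IsoExt FibreCts Rot Fam FamSet)
open Pool.Agent.Helper40.GAP (Model AffineZero Adm)
open Pool.Agent.Helper40.DZP (ZeroEnt Vanish)

universe u

/-- a bijective continuous map of a compact metric space as a homeomorphism -/
theorem exists_homeo {Y : Type} [MetricSpace Y] [CompactSpace Y] (S : C(Y, Y))
    (h : Function.Bijective S) : ∃ e : Y ≃ₜ Y, (e : Y → Y) = S := by
  let e : Y ≃ Y := Equiv.ofBijective S h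
  have hc : Continuous e := S.continuous
  exact ⟨hc.homeoOfEquivCompactToT2, rfl⟩

/-- part 1 -/
theorem fin_one (hG : ST_GDB) (hX : ST_FXR) (X Y : Type) [MetricSpace X] [CompactSpace X]
    [MetricSpace Y] [CompactSpace Y] [MeasurableSpace Y] [BorelSpace Y] (ν : Measure Y)
    (S : C(Y, Y)) (π : X → Y) (τ : X → X) (ρ : X → X → ℝ) (F : X → ℂ) (hM : Model S ν)
    (hF : Full ν) (hI : IsoExt π S τ ρ) (hτ : FibreCts ν π τ) (hFc : FibreCts ν π F)
    (hB : ∃ C : ℝ, ∀ x, ‖F x‖ ≤ C) (x : X) : Vanish τ F x := by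
  have hmd := md_of_model hM
  obtain ⟨hb, hp, hmp, hu, -⟩ := hM
  obtain ⟨C, hC⟩ := hB
  obtain ⟨e, he⟩ := exists_homeo S hb
  rw [← he] at hmd hmp hu hI
  obtain ⟨h1, h2⟩ := hG Y ν e hmp hmd hu
  exact hX X Y ν π e τ ρ hI h1 h2 hF e.continuous hmp hτ F C hC hFc x

/-- part 2 -/
theorem fin_two (hG : ST_GDB) (hC : ST_CSP.{u}) (B : Type u) [CStarAlgebra B] (Y : Type)
    [MetricSpace Y] [CompactSpace Y] [MeasurableSpace Y] [BorelSpace Y] (ν : Measure Y)
    (S : C(Y, Y)) (α : B →⋆ₐ[ℂ] B) (π : C(Y, ℂ) →⋆ₐ[ℂ] B) (hM : Model S ν)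
    (hr : Rot S α π) (a : B)
    (ha : a ∈ closure (Submodule.span ℂ (FamSet α π) : Set B)) : TwistedDisjoint α a := by
  have hmd := md_of_model hM
  obtain ⟨hb, hp, hmp, hu, -⟩ := hM
  obtain ⟨e, he⟩ := exists_homeo S hb
  rw [← he] at hmd hmp hu
  obtain ⟨h1, h2⟩ := hG Y ν e hmp hmd hu
  rw [he] at h1
  refine hC B Y S α π ?_ hr a ha
  intro d φ v u x hφ hφu hv
  exact h1 d φ v u x ⟨Eventually.of_forall fun y => hφ.continuousAt, hφu⟩ hv

/-- part 1 for affine maps -/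
theorem aff_one (hOld : ∀ (X : Type) [MetricSpace X] [CompactSpace X] (r : ℕ) (π : X → T r)
      (S : C(T r, T r)) (τ : X → X) (ρ : X → X → ℝ) (F : X → ℂ),
      Pool.Agent.Helper40.IZP.IsoExt π S τ ρ →
      Pool.Agent.Helper40.IZP.Adm π S τ F → ∀ x : X, Vanish τ F x)
    (X Y : Type) [MetricSpace X] [CompactSpace X] [MetricSpace Y] [CompactSpace Y]
    (S : C(Y, Y)) (π : X → Y) (τ : X → X) (ρ : X → X → ℝ) (F : X → ℂ) (hS : AffineZero S)
    (hI : IsoExt π S τ ρ) (hτ : Continuous τ) (hF : Continuous F) (x : X) : Vanish τ F x := by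
  obtain ⟨r, e, S₁, hZ, he⟩ := hS
  refine hOld X r (fun x => e (π x)) S₁ τ ρ F ?_ (Or.inr ⟨hZ, hτ, hF⟩) x
  obtain ⟨h1, h2, h3, h4, h5, h6, h7⟩ := hI
  have hinj : ∀ x x', e (π x) = e (π x') → π x = π x' := fun x x' h => e.injective h
  refine ⟨e.continuous.comp h1, fun x => ?_, ?_, fun x x' h => h4 x x' (hinj x x' h),
    fun x x' h => h5 x x' (hinj x x' h),
    fun x x' x'' h h' => h6 x x' x'' (hinj x x' h) (hinj x' x'' h'),
    fun x x' h => h7 x x' (hinj x x' h)⟩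
  · show e (π (τ x)) = S₁ (e (π x))
    rw [h2, he]
  · have : {z : X × X | e (π z.1) = e (π z.2)} = {z | π z.1 = π z.2} := by
      ext z
      exact ⟨fun h => e.injective h, fun h => congrArg e h⟩
    rw [this]
    exact h3

/-- part 2 for affine maps -/
theorem aff_two (hOld : ∀ (B : Type u) [CStarAlgebra B] (r : ℕ)
      (S : C(T r, T r)) (α : B →⋆ₐ[ℂ] B) (π : C(T r, ℂ) →⋆ₐ[ℂ] B),
      Pool.Agent.Helper16.CZP.Base S ∨ ZeroEnt S →
      Pool.Agent.Helper16.CZP.Rot S α π → ∀ a : B,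
      a ∈ closure (Submodule.span ℂ (Pool.Agent.Helper40.DZP.FamSet α π) : Set B) →
      TwistedDisjoint α a)
    (B : Type u) [CStarAlgebra B] (Y : Type) [MetricSpace Y] [CompactSpace Y]
    (S : C(Y, Y)) (α : B →⋆ₐ[ℂ] B) (π : C(Y, ℂ) →⋆ₐ[ℂ] B) (hS : AffineZero S)
    (hr : Rot S α π) (a : B)
    (ha : a ∈ closure (Submodule.span ℂ (FamSet α π) : Set B)) : TwistedDisjoint α a := by
  obtain ⟨r, e, S₁, hZ, he⟩ := hS
  let E : C(Y, T r) := ⟨e, e.continuous⟩
  let E' : C(T r, Y) := ⟨e.symm, e.symm.continuous⟩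
  let c : C(T r, ℂ) →⋆ₐ[ℂ] C(Y, ℂ) := E.compStarAlgHom' ℂ ℂ
  have hc : ∀ f : C(T r, ℂ), c f = f.comp E := fun f => rfl
  refine hOld B r S₁ α (π.comp c) (Or.inr hZ) ?_ a ?_
  · intro f
    show α (π (c f)) = π (c (f.comp S₁))
    rw [hr (c f), hc, hc]
    congr 1
    ext y
    show f (e (S y)) = f (S₁ (e y))
    rw [he]
  · refine closure_mono (Submodule.span_mono ?_) ha
    rintro x ⟨d, P, v, ⟨hP, hv⟩, f, i, rfl⟩
    refine ⟨d, P.comp E', v, ⟨fun x => hP _, fun i => ?_⟩, f.comp E', i, ?_⟩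
    · rw [hv i]
      refine Finset.sum_congr rfl fun j _ => ?_
      congr 1
      show _ = π (c _)
      rw [hc]
      congr 1
      ext y
      show P y i j = P (e.symm (e y)) i j
      rw [e.symm_apply_apply]
    · show π (c _) * v i = _
      rw [hc]
      congr 2
      ext y
      show f (e.symm (e y)) = f y
      rw [e.symm_apply_apply]

end Pool.Agent.Helper40.GA
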