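import Mathlib
import Pool.Agent.Helper40.GZ.Pub

/-!
Definitions used in the statement on isometric extensions of uniquely ergodic models of triangular
systems.
-/

open MeasureTheory

namespace Pool.Agent.Helper40.GAP

open Pool.Agent.Helper40.DZP (ZeroEnt)
open Pool.Agent.Helper40.GZP (Full FibreCts)

section

variable {Y : Type} [MeasurableSpace Y]

/-- There are finitely many measurable functions `u i` of modulus one on `Y` which separate the
points of a set of full measure, and for almost all `y` the quotient of `u i (S y)` and `u i y` is a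
measurable function of the values `u j y` with `j < i`. -/
def Triangular (S : Y → Y) (ν : Measure Y) : Prop :=
  ∃ (N : ℕ) (u : Fin N → Y → ℂ) (f : Fin N → (Fin N → ℂ) → ℂ),
    (∀ i, Measurable (u i) ∧ ∀ y, ‖u i y‖ = 1) ∧
    (∀ i, Measurable (f i) ∧ ∀ x x', (∀ j, j < i → x j = x' j) → f i x = f i x') ∧
    (∀ i, ∀ᵐ y ∂ν, u i (S y) = f i (fun j => u j y) * u i y) ∧
    ∃ A : Set Y, MeasurableSet A ∧ ν Aᶜ = 0 ∧
      ∀ y ∈ A, ∀ y' ∈ A, (∀ i, u i y = u i y') → y = y'

/-- `S` is bijective, `ν` is the only invariant probability measure of `S`, all powers of `S` are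
ergodic, and the system `(Y, ν, S)` is triangular -/
def Model (S : Y → Y) (ν : Measure Y) : Prop :=
  Function.Bijective S ∧ IsProbabilityMeasure ν ∧ MeasurePreserving S ν ν ∧
  (∀ ν' : Measure Y, IsProbabilityMeasure ν' → MeasurePreserving S ν' ν' → ν' = ν) ∧
  (∀ m : ℕ, 1 ≤ m → Ergodic S^[m] ν) ∧ Triangular S ν

end

/-- `S` is conjugate to an affine map `x ↦ A x + b` of a torus `T^r` such that all eigenvalues of
the integer matrix `A` are zero or roots of unity -/
def AffineZero {Y : Type} [TopologicalSpace Y] (S : Y → Y) : Prop :=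
  ∃ (r : ℕ) (e : Y ≃ₜ UnitAddTorus (Fin r)) (S₁ : C(UnitAddTorus (Fin r), UnitAddTorus (Fin r))),
    ZeroEnt S₁ ∧ ∀ y, e (S y) = S₁ (e y)

/-- the hypotheses on `S`, the map `T` of `X` and the function `F` on `X` -/
def Adm {X Y : Type} [TopologicalSpace X] [TopologicalSpace Y] [MeasurableSpace Y]
    (ν : Measure Y) (π : X → Y) (S : Y → Y) (T : X → X) (F : X → ℂ) : Prop :=
  (Model S ν ∧ Full ν ∧ FibreCts ν π T ∧ FibreCts ν π F ∧ ∃ C : ℝ, ∀ x, ‖F x‖ ≤ C) ∨
  (AffineZero S ∧ Continuous T ∧ Continuous F)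

end Pool.Agent.Helper40.GAP
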