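import Pool.Agent.Helper40.GA.Pub
import Pool.Agent.Helper98.TA.Stmts2
import Pool.Agent.Helper98.TW.Basic

/-!
The class of the hand-in on triangular systems in terms of the definitions of the sheet TA.
-/

open Finset Filter MeasureTheory Topology
open scoped ComplexConjugate

namespace Pool.Agent.Helper40.GA

open Pool.Agent.Helper98.TW
open Pool.Agent.Helper98.TA (Ga Pw ad Tr Md)
open Pool.Agent.Helper40.GAP

section

variable {Y : Type} [m0 : MeasurableSpace Y] {ν : Measure Y}

/-- measurable functions of finitely many functions -/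
theorem am_fun {ι : Type} [Fintype ι] {𝒜 : SA Y} {g : ι → Y → ℂ} (hg : ∀ i, AM ν 𝒜 (g i))
    {F : (ι → ℂ) → ℂ} (hF : Measurable F) : AM ν 𝒜 (fun y => F (fun i => g i y)) := by
  choose k hk hgk using fun i => am_iff.1 (hg i)
  refine am_iff.2 ⟨fun y => F (fun i => k i y), ?_, ?_⟩
  · exact hF.comp (@measurable_pi_lambda Y ι (fun _ => ℂ) 𝒜 _ _ hk)
  · have : ∀ᵐ y ∂ν, ∀ i, g i y = k i y := ae_all_iff.2 hgk
    filter_upwards [this] with y hy
    congr 1
    funext i
    exact hy i

/-- the sigma algebras of the tower -/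
noncomputable def AA (ν : Measure Y) (u : ℕ → Y → ℂ) : ℕ → SA Y
  | 0 => bo
  | k + 1 => ad ν (AA ν u k) (u k)

theorem AA_mono {u : ℕ → Y → ℂ} {j k : ℕ} (h : j ≤ k) : LQ ν (AA ν u j) (AA ν u k) := by
  induction k, h using Nat.le_induction with
  | base => exact lq_refl
  | succ k _ ih => exact lq_trans ih lq_jo_left

theorem am_u {u : ℕ → Y → ℂ} (hu : ∀ k, UF ν (u k)) {j k : ℕ} (h : j < k) :
    AM ν (AA ν u k) (u j) := by
  refine AA_mono h _ ?_
  refine lq_jo_right _ (am_sg ?_)
  refine ⟨hu j, 1, ?_⟩
  refine am_congr (am_const 1) ?_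
  filter_upwards [(hu j).mul_conj] with x hx
  rw [zpow_one, hx]

/-- triangular systems are systems of the sheet TA -/
theorem tr_of_triangular [StandardBorelSpace Y] {S : Y → Y} (h : Triangular S ν) :
    ∃ (u : ℕ → Y → ℂ) (A : ℕ → SA Y) (N : ℕ), Tr ν S u A N := by
  obtain ⟨N, u, f, hu, hf, hS, A, hA, hA0, hinj⟩ := h
  let v : ℕ → Y → ℂ := fun k y => if h : k < N then u ⟨k, h⟩ y else 1
  have hv : ∀ k, UF ν (v k) := by
    intro k
    by_cases h : k < N
    · have e : v k = u ⟨k, h⟩ := by
        funext y
        simp [v, h]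
      rw [e]
      exact ⟨(hu _).1, Eventually.of_forall (hu _).2⟩
    · have e : v k = fun _ => 1 := by
        funext y
        simp [v, h]
      rw [e]
      exact uf_one
  have huv : ∀ i : Fin N, v i = u i := by
    intro i
    funext y
    simp [v]
  refine ⟨v, AA ν v, N, rfl, fun _ => rfl, hv, fun k => ?_, fun F hF => ?_⟩
  · by_cases h : k < N
    · have h1 : AM ν (AA ν v k)
          (fun y => f ⟨k, h⟩ (fun j => if j.1 < k then v j y else 1)) := by
        have : ∀ j : Fin N, AM ν (AA ν v k) (fun y => if j.1 < k then v j y else 1) := by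
          intro j
          by_cases hj : j.1 < k
          · simpa [hj] using am_u hv hj
          · simpa [hj] using am_const (μ := ν) (𝒜 := AA ν v k) 1
        exact am_fun this (hf ⟨k, h⟩).1
      refine am_congr h1 ?_
      filter_upwards [hS ⟨k, h⟩] with y hy
      have e1 : v k (S y) = u ⟨k, h⟩ (S y) := by simp [v, h]
      have e2 : v k y = u ⟨k, h⟩ y := by simp [v, h]
      have e3 : u ⟨k, h⟩ y * conj (u ⟨k, h⟩ y) = 1 := by
        rw [Complex.mul_conj, Complex.normSq_eq_norm_sq, (hu ⟨k, h⟩).2 y]
        norm_num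
      have e4 : f ⟨k, h⟩ (fun j => if j.1 < k then v j y else 1) =
          f ⟨k, h⟩ (fun j => u j y) := by
        refine (hf ⟨k, h⟩).2 _ _ fun j hj => ?_
        have : j.1 < k := hj
        simp [this, huv j]
      rw [e1, e2, hy, mul_assoc, e3, mul_one, e4]
    · have e : v k = fun _ => 1 := by
        funext y
        simp [v, h]
      rw [e]
      exact inc_one
  · have hst : StandardBorelSpace A := hA.standardBorel
    let U : A → (Fin N → ℂ) := fun y i => u i y.1
    have hU : Measurable U :=
      measurable_pi_lambda _ fun i => (hu i).1.comp measurable_subtype_coe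
    have hUi : Function.Injective U := by
      intro y y' hyy
      exact Subtype.ext (hinj y.1 y.2 y'.1 y'.2 fun i => congrFun hyy i)
    have hE : MeasurableEmbedding U := hU.measurableEmbedding hUi
    obtain ⟨G, hG, hGU⟩ := hE.exists_measurable_extend
      (hF.comp measurable_subtype_coe : Measurable (fun y : A => F y.1)) (fun _ => ⟨0⟩)
    have h1 : AM ν (AA ν v N) (fun y => G (fun i => u i y)) := by
      refine am_fun (fun i => ?_) hG
      have := am_u hv i.2
      rwa [huv i] at this
    refine am_congr h1 ?_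
    have hae : ∀ᵐ y ∂ν, y ∈ A := by
      rw [ae_iff]
      exact hA0
    filter_upwards [hae] with y hy
    exact congrFun hGU ⟨y, hy⟩

theorem md_of_model {S : Y → Y} [StandardBorelSpace Y] (h : Model S ν) : Md S ν :=
  ⟨h.2.2.2.2.1, tr_of_triangular h.2.2.2.2.2⟩

end

end Pool.Agent.Helper40.GA
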